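import Pool.Agent.Y121.AHS.Defs

/-!
# Products of powers of varieties with maximal Hodge groups: definitions
-/

universe u v

namespace Pool.Agent.L5helper28.HG

open Pool.Agent.Y121.AHS Pool.Agent.H914 Pool.Agent.H914.VarClass.Obj

/-- The linear maps. -/
abbrev Lin (K A B : Type) [Field K] [Ring A] [Algebra K A] [Ring B] [Algebra K B] : Type :=
  A →ₗ[K] B

/-- The bilinear forms. -/
abbrev Form (K A : Type) [Field K] [Ring A] [Algebra K A] : Type := LinearMap.BilinForm K A

/-- The ring `A` is not zero. -/
def IsNonzero (A : Type) [Ring A] : Prop := (1 : A) ≠ 0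

section

variable {K A B C : Type} [Field K] [Ring A] [Algebra K A] [Ring B] [Algebra K B] [Ring C]
  [Algebra K C]

/-- The element `c` is in the algebra generated by the elements with the property `S`. -/
def InAlgebra (K : Type) {A : Type} [Field K] [Ring A] [Algebra K A] (S : A → Prop) (c : A) : Prop :=
  c ∈ Algebra.adjoin K {x | S x}

/-- The element `c` is a linear combination of elements with the property `S`. -/
def InSpan (K : Type) {A : Type} [Field K] [Ring A] [Algebra K A] (S : A → Prop) (c : A) : Prop :=
  c ∈ Submodule.span K {x | S x}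

/-- The maximal number of linearly independent elements with the property `S`. -/
noncomputable def number (K : Type) {A : Type} [Field K] [Ring A] [Algebra K A] (S : A → Prop) : ℕ :=
  Module.finrank K (Submodule.span K {c | S c})

/-- The element `c` is a linear combination of products `p a * q b` of images of elements `a` with
the property `S` and `b` with the property `R`. -/
def SumOfProducts (p : A →ₐ[K] C) (q : B →ₐ[K] C) (S : A → Prop) (R : B → Prop) (c : C) : Prop :=
  c ∈ Submodule.span K {x | ∃ a b, S a ∧ R b ∧ x = p a * q b}

/-- The commutator. -/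
def commutator (D E : Lin K A A) : Lin K A A := D ∘ₗ E - E ∘ₗ D

/-- The linear combination `r D + s E`. -/
def combination (r s : K) (D E : Lin K A A) : Lin K A A := r • D + s • E

/-- The linear maps are equal on the elements with the property `V`. -/
def AgreeOn (V : A → Prop) (D E : Lin K A B) : Prop := ∀ x, V x → D x = E x

/-- The linear map `D` preserves the property `V` and is skew for the bilinear form `ψ` on the
elements with this property. -/
def SkewOn (V : A → Prop) (ψ : Form K A) (D : Lin K A A) : Prop :=
  (∀ x, V x → V (D x)) ∧ ∀ x y, V x → V y → ψ (D x) y = -ψ x (D y)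

variable [Algebra K ℂ]

/-- The element `∑ z i ⊗ a i` of the complexification. -/
noncomputable def el {m : ℕ} (z : Fin m → ℂ) (a : Fin m → A) : Ext K ℂ A :=
  ∑ i, extSm K ℂ (z i) (extEm K ℂ (a i))

/-- The number `∑ z i w j ψ (a i, b j)`: the value of the complexification of the bilinear form `ψ` on
the elements `∑ z i ⊗ a i` and `∑ w j ⊗ b j`. -/
noncomputable def form (ψ : Form K A) {m n : ℕ} (z : Fin m → ℂ) (a : Fin m → A) (w : Fin n → ℂ)
    (b : Fin n → A) : ℂ :=
  ∑ i, ∑ j, z i * w j * algebraMap K ℂ (ψ (a i) (b j))

end

/-- An algebra `A` over the field `K` with elements of degree `w` (`deg w`), classes of algebraic cycles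
(`cyc`), relations `pq p q x` for the elements `x` of its complexification (`x` is of type `(p, q)`) and
a number `dim`: in the intended use `A = H(X, ℚ)` and `dim = dim X` for a smooth projective complex
variety `X`. -/
structure Alg (K : Type) [Field K] [Algebra K ℂ] where
  A : Type
  [ring : Ring A]
  [alg : Algebra K A]
  deg : ℕ → A → Prop
  cyc : A → Prop
  pq : ℤ → ℤ → Ext K ℂ A → Prop
  dim : ℕ

attribute [instance] Alg.ring Alg.alg

variable {K : Type} [Field K] [Algebra K ℂ]

/-- The linear maps. -/
abbrev Maps (M N : Alg K) : Type := Lin K M.A N.A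

/-- The rational bilinear form `ψ` is a polarisation: only the zero element is of type `(p, q)` unless
`0 ≤ p, q ≤ dim`, the complex conjugation exchanges the types `(p, q)` and `(q, p)`, the complexification
of `ψ` vanishes on pairs of elements of types `(p, q)` and `(r, s) ≠ (q, p)`, and `i ^ (p - q) ψ(x, x̄)`
is a positive real number for all `x ≠ 0` of type `(p, q)`. -/
def IsPolarisation (M : Alg K) (ψ : Form K M.A) : Prop :=
  (∀ p q x, M.pq p q x → x ≠ extSm K ℂ 0 x → 0 ≤ p ∧ p ≤ M.dim ∧ 0 ≤ q ∧ q ≤ M.dim) ∧
  ∀ (p q : ℤ) (m : ℕ) (z : Fin m → ℂ) (a : Fin m → M.A), M.pq p q (el z a) →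
    M.pq q p (el (fun i => star (z i)) a) ∧
    (∀ (r s : ℤ) (n : ℕ) (w : Fin n → ℂ) (b : Fin n → M.A), M.pq r s (el w b) → (r ≠ q ∨ s ≠ p) →
      form ψ z a w b = 0) ∧
    (el z a ≠ extSm K ℂ 0 (el z a) →
      ∃ r : ℝ, 0 < r ∧ Complex.I ^ (p - q) * form ψ z a (fun i => star (z i)) a = r)

/-- There is a polarisation. -/
def Polarised (M : Alg K) : Prop := ∃ ψ, IsPolarisation M ψ

/-- The linear combination with the complex coefficients `c i` of the maps `f i` acts on the elements
of type `(p, q)` of the complexification as multiplication by `p - q`. -/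
def ActsAsHodge (M : Alg K) {m : ℕ} (c : Fin m → ℂ) (f : Fin m → Maps M M) : Prop :=
  ∀ p q x, M.pq p q x →
    ∑ i, extSm K ℂ (c i) (extMap K ℂ (f i) x) = extSm K ℂ ((p - q : ℤ) : ℂ) x

/-- The tuples of linear maps. -/
abbrev Tup {n : ℕ} (M : Fin n → Alg K) : Type := ∀ a, Maps (M a) (M a)

variable {n : ℕ} {M : Fin n → Alg K}

/-- The tuples with the property `g` form a rational Lie algebra: `g` is not empty and closed under
commutators and linear combinations. -/
def IsLie (g : Tup M → Prop) : Prop :=
  (∃ D, g D) ∧ ∀ D, g D → ∀ E, g E → g (fun a => commutator (D a) (E a)) ∧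
    ∀ r s : K, g fun a => combination r s (D a) (E a)

/-- Some linear combination with complex coefficients of elements of `g` acts on the elements of
type `(p, q)` of the complexification of every `M a` as multiplication by `p - q`. -/
def ContainsHodge (g : Tup M → Prop) : Prop :=
  ∃ (m : ℕ) (c : Fin m → ℂ) (f : Fin m → Tup M), (∀ i, g (f i)) ∧
    ∀ a, ActsAsHodge (M a) c fun i => f i a

/-- The tuple `D` belongs to the Lie algebra of the Hodge group of `M 0 ⊕ … ⊕ M (n - 1)`: the smallest
rational Lie algebra whose complexification contains the operator which multiplies the elements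
of type `(p, q)` by `p - q`. -/
def InHodgeLie (D : Tup M) : Prop := ∀ g : Tup M → Prop, IsLie g → ContainsHodge g → g D

/-- The linear map `D` belongs to the Lie algebra of the Hodge group of `M`. -/
def hodgeLie (M : Alg K) (D : Maps M M) : Prop := InHodgeLie (M := fun _ : Fin 1 => M) fun _ => D

/-- The family is independent: the Lie algebra of the Hodge group of the sum of finitely many
different members is the product of the Lie algebras of the Hodge groups of these members. -/
def Independent {ι : Type v} (M : ι → Alg K) : Prop :=
  ∀ (n : ℕ) (e : Fin n → ι), Function.Injective e → ∀ D : Tup fun a => M (e a),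
    (∀ a, hodgeLie (M (e a)) (D a)) → InHodgeLie D

/-- An elliptic curve: the dimension is one, and there are two linearly independent elements of
degree one. -/
def IsEllipticCurve (M : Alg K) : Prop := M.dim = 1 ∧ number K (M.deg 1) = 2

/-- The Hodge group is maximal in degree `w`: for some polarisation `ψ` every linear map which is skew
for `ψ` on the elements of degree `w` agrees there with an element of the Lie algebra of the Hodge group
(the Hodge group acts as the full symplectic group of `ψ`). -/
def HasMaximalHodgeGroup (M : Alg K) (w : ℕ) : Prop :=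
  ∃ ψ, IsPolarisation M ψ ∧
    ∀ D : Maps M M, SkewOn (M.deg w) ψ D → ∃ E, hodgeLie M E ∧ AgreeOn (M.deg w) E D

/-- The linear map `f` is a morphism of Hodge structures up to a Tate twist: it maps the elements of
type `(p, q)` to elements of type `(p + c, q + c)`. -/
def IsMorphism {M N : Alg K} (f : Maps M N) (c : ℤ) : Prop :=
  ∀ p q x, M.pq p q x → N.pq (p + c) (q + c) (extMap K ℂ f x)

/-- There are no morphisms of Hodge structures (up to Tate twists) from the elements of degree `v` of
`M` to the elements of degree `w` of `N` except zero. -/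
def NoMorphisms (M N : Alg K) (v w : ℕ) : Prop :=
  ∀ (f : Maps M N) (c : ℤ), v + 2 * c = w → IsMorphism f c → AgreeOn (M.deg v) f 0

/-- Either `M` is an elliptic curve and `w = 1`; or the Hodge group is maximal in the odd degree `w`, and
either `w = 1` and the algebra `M` is generated by the elements of degree one and the classes of
algebraic cycles, or every element is the sum of a linear combination of classes of algebraic cycles
and an element of degree `w`. -/
def IsSimple (M : Alg K) (w : ℕ) : Prop :=
  w = 1 ∧ IsEllipticCurve M ∨ Odd w ∧ HasMaximalHodgeGroup M w ∧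
    (w = 1 ∧ (∀ c, InAlgebra K (fun x => M.deg 1 x ∨ M.cyc x) c) ∨
      ∀ c, ∃ a b, InSpan K M.cyc a ∧ M.deg w b ∧ c = a + b)

/-- The members of the family are elliptic curves or have a maximal Hodge group in some degree `w i`, and
different members are not isogenous: there are no morphisms of Hodge structures up to Tate twists
between their elements of these degrees except zero. -/
def NonIsogenous {ι : Type v} (M : ι → Alg K) : Prop :=
  ∃ w : ι → ℕ, (∀ i, IsSimple (M i) (w i)) ∧
    ∀ i j, i ≠ j → NoMorphisms (M i) (M j) (w i) (w j)

/-- The algebra `N` is generated by the images of morphisms (up to Tate twists) from the `M a`. -/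
def Generates (M : Fin n → Alg K) (N : Alg K) : Prop :=
  ∃ (f : ∀ a, Maps (M a) N) (c : Fin n → ℤ), (∀ a, IsMorphism (f a) (c a)) ∧
    ∀ y, InAlgebra K (fun y => ∃ a x, y = f a x) y

variable {k : Type u} [Field k] {𝒱 : VarClass k} {ops : CycleOps 𝒱} (T : HodgeTheory ops)

/-- The cohomology of `X`. -/
noncomputable def coh (X : 𝒱.Obj) : Alg T.W.K where
  A := T.W.H X
  deg w x := x ∈ T.W.gr X w
  cyc x := ∃ j z, X.IsCyc j z ∧ T.W.cl X z = x
  pq := IsType T.pq
  dim := X.dim

/-- The smallest class of varieties which contains the varieties in `S`, is closed under products,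
and contains all varieties whose cohomology algebra is generated by the images of morphisms of Hodge
structures (up to Tate twists) from the cohomology of finitely many varieties in the class. -/
inductive Built (S : Set 𝒱.Obj) : 𝒱.Obj → Prop
  | of {X : 𝒱.Obj} : X ∈ S → Built S X
  | prod {X Y : 𝒱.Obj} : Built S X → Built S Y → Built S (X.prod Y)
  | gen {n : ℕ} {X : Fin n → 𝒱.Obj} {Y : 𝒱.Obj} : (∀ a, Built S (X a)) →
      Generates (fun a => coh T (X a)) (coh T Y) → Built S Y

/-- The power `X ^ (n + 1)`. -/
noncomputable def power (X : 𝒱.Obj) : ℕ → 𝒱.Obj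
  | 0 => X
  | n + 1 => (power X n).prod X

/-- The map `x ↦ pr₂_* (cl z · pr₁^* x)` from the cohomology of `A` to the cohomology of `B` which is
given by the cycle `z` on `A × B`. -/
noncomputable def act {A B : 𝒱.Obj} (z : (A.prod B).Cycles) (x : T.W.H A) : T.W.H B :=
  corrOp (T.W.map (fst A B)) (T.W.push (snd A B)) (T.W.cl (A.prod B) z) x

/-- The motive of `Q` is a direct summand of a sum of Tate twists of the motives of the varieties `P a`:
the identity of `H(Q)` is a finite sum of compositions `H(Q) → H(P a) → H(Q)` of maps which are given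
by algebraic cycles. -/
def IsSummand {m : ℕ} (P : Fin m → 𝒱.Obj) (Q : 𝒱.Obj) : Prop :=
  ∃ (u : ∀ a, (Q.prod (P a)).Cycles) (v : ∀ a, ((P a).prod Q).Cycles),
    (∀ a, (∃ j, (Q.prod (P a)).IsCyc j (u a)) ∧ ∃ j, ((P a).prod Q).IsCyc j (v a)) ∧
    ∀ x, ∑ a, act T (v a) (act T (u a) x) = x

/-- The products of powers of different members `X i` with `i ∈ S`, and the varieties whose motives are
direct summands of sums of Tate twists of motives of such varieties (for instance all varieties which
are isogenous to such products or dominated by them). -/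
inductive FromPowers {ι : Type v} (X : ι → 𝒱.Obj) : Set ι → 𝒱.Obj → Prop
  | pow {S : Set ι} {i : ι} (n : ℕ) : i ∈ S → FromPowers X S (power (X i) n)
  | mul {S : Set ι} {i : ι} (n : ℕ) {P : 𝒱.Obj} : i ∈ S → FromPowers X (S \ {i}) P →
      FromPowers X S ((power (X i) n).prod P)
  | mot {S : Set ι} {m : ℕ} {P : Fin m → 𝒱.Obj} {Q : 𝒱.Obj} : (∀ a, FromPowers X S (P a)) →
      IsSummand T P Q → FromPowers X S Q

/-- The Hodge classes of degree `2 j` on `X` are the classes of algebraic cycles. -/
def AlgebraicIn (X : 𝒱.Obj) (j : ℕ) : Prop :=
  ∀ c, IsHodge T X j c → ∃ z, X.IsCyc j z ∧ T.W.cl X z = c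

/-- The Hodge conjecture for `X`. -/
def HodgeConjecture (X : 𝒱.Obj) : Prop := ∀ j, AlgebraicIn T X j

/-- Every Hodge class on `P × Y` is a linear combination of products of a Hodge class on `P` and a
Hodge class on `Y`. -/
def HodgeKunneth (P Y : 𝒱.Obj) : Prop := ∀ j c, IsHodge T (P.prod Y) j c →
  SumOfProducts (T.W.map (fst P Y)) (T.W.map (snd P Y)) (fun a => ∃ i, IsHodge T P i a)
    (fun b => ∃ i, IsHodge T Y i b) c

/-- The total Betti number of `X`. -/
noncomputable def betti (X : 𝒱.Obj) : ℕ := number T.W.K fun _ : T.W.H X => True

/-- The number of linearly independent Hodge classes on `X`. -/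
noncomputable def hodgeNumber (X : 𝒱.Obj) : ℕ := number T.W.K fun c => ∃ j, IsHodge T X j c

end Pool.Agent.L5helper28.HG
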