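import Pool.Agent.L5helper28.HG.Defs
import Pool.Agent.L5helper28.HC.Main
import Pool.Agent.L5helper28.IH.Mix

/-!
# Products of powers of varieties with maximal Hodge groups
-/

set_option autoImplicit false
set_option linter.unusedSectionVars false

open CategoryTheory AlgebraicGeometry TensorProduct

universe u v

namespace Pool.Agent.L5helper28.HG

open Module
open Pool.Agent.H914 Pool.Agent.H914.VarClass Pool.Agent.H914.VarClass.Obj
  Pool.Agent.H914.WeilCohomology
open Pool.Agent.Y121 Pool.Agent.Y121.AHS Pool.Agent.N996 Pool.Agent.N996.FP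
open Pool.Agent.Y133.Half (pw ClassPred Sys)
open Pool.Agent.L5helper28.CA (AllIn prod_in snd_in split_in sum_of dim_prod)
open Pool.Agent.L5helper28.IF (Spl spH)
open Pool.Agent.L5helper28.HA (ne_iff)
open Pool.Agent.L5helper28.IG (algPred)
open Pool.Agent.L5helper28.IH

noncomputable section

variable {k : Type u} [Field k] {𝒱 : VarClass k} {ops : CycleOps 𝒱} {T : HodgeTheory ops}
  {P Q Y X : 𝒱.Obj}

set_option maxHeartbeats 400000

theorem isPolarisation_of {ψ : Form T.W.K (T.W.H X)} (h : IsPolarisation (coh T X) ψ) :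
    FP.IsPolarisation T X ψ := by
  obtain ⟨h1, h2⟩ := h
  refine ⟨?_, ?_, ?_, ?_⟩
  · intro p q x hx h0
    exact h1 p q x hx ((ne_iff x).2 h0)
  · intro p q x hx
    obtain ⟨m, z, a, rfl⟩ := HD.exists_el (K := T.W.K) (A := T.W.H X) x
    have h3 := (h2 p q m z a hx).1
    have h4 : conjH T (el (K := T.W.K) (A := T.W.H X) z a) =
      el (K := T.W.K) (A := T.W.H X) (fun i => star (z i)) a :=
      HD.conj_el (K := T.W.K) (A := T.W.H X) T.rat z a
    exact (congrArg (fun t => IsType T.pq q p t) h4).mpr h3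
  · intro p q r s x y hx hy hn
    obtain ⟨m, z, a, rfl⟩ := HD.exists_el (K := T.W.K) (A := T.W.H X) x
    obtain ⟨n, w, b, rfl⟩ := HD.exists_el (K := T.W.K) (A := T.W.H X) y
    exact (HD.bil_el (K := T.W.K) (A := T.W.H X) ψ z a w b).trans
      ((h2 p q m z a hx).2.1 r s n w b hy hn)
  · intro p q x hx h0
    obtain ⟨m, z, a, rfl⟩ := HD.exists_el (K := T.W.K) (A := T.W.H X) x
    obtain ⟨r, hr, h3⟩ := (h2 p q m z a hx).2.2 ((ne_iff _).2 h0)
    refine ⟨r, hr, ?_⟩
    rw [← h3]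
    refine congrArg (fun t => Complex.I ^ (p - q) * t) ?_
    have h4 : conjH T (el (K := T.W.K) (A := T.W.H X) z a) =
      el (K := T.W.K) (A := T.W.H X) (fun i => star (z i)) a :=
      HD.conj_el (K := T.W.K) (A := T.W.H X) T.rat z a
    have h5 : (HD.el (K := T.W.K) (A := T.W.H X) z a) = el (K := T.W.K) (A := T.W.H X) z a := rfl
    rw [h5, h4]
    exact HD.bil_el (K := T.W.K) (A := T.W.H X) ψ z a (fun i => star (z i)) a

theorem polarised_of (h : Polarised (coh T X)) : ∃ ψ, FP.IsPolarisation T X ψ := by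
  obtain ⟨ψ, hψ⟩ := h
  exact ⟨ψ, isPolarisation_of hψ⟩

theorem hodgeLie_iff {D : Module.End T.W.K (T.W.H X)} :
    hodgeLie (coh T X) D ↔ (fun _ => D) ∈ IF.HodgeLie T (fun _ : Fin 1 => X) :=
  IF.inHodgeLie_iff (T := T) (X := fun _ : Fin 1 => X) (D := fun _ => D)

theorem independent_iff {ι : Type v} {X : ι → 𝒱.Obj} :
    Independent (fun i => coh T (X i)) ↔ Fam.Independent T X := Iff.rfl

theorem mem_gr_of_number {V : Submodule T.W.K (T.W.H X)} :
    number T.W.K (fun x => x ∈ V) = finrank T.W.K V := by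
  unfold number
  have h : ({c | c ∈ V} : Set (T.W.H X)) = (V : Set (T.W.H X)) := rfl
  rw [h, Submodule.span_eq]

theorem curve_of (h : IsEllipticCurve (coh T X)) : IF.IsEllipticCurve T X := by
  refine ⟨h.1, ?_⟩
  rw [← h.2]
  exact mem_gr_of_number.symm

theorem alg_spH {a : T.W.H X} (h : a ∈ (algPred T).sp X) : a ∈ spH T X := by
  refine (Submodule.span_le (p := spH T X)).2 ?_ h
  rintro _ ⟨j, z, hz, rfl⟩
  exact Submodule.subset_span ⟨j, T.cyc X j z hz⟩

theorem mx_of {w : ℕ} (hw : Odd w) (h : HasMaximalHodgeGroup (coh T X) w)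
    (hg : ∀ z : T.W.H X, z ∈ Algebra.adjoin T.W.K ((spH T X : Set (T.W.H X)) ∪ T.W.gr X w)) :
    MxC T X w := by
  obtain ⟨ψ, hψ, h2⟩ := h
  refine mxC_of_mx ⟨hw, hg, ψ, isPolarisation_of hψ, fun A hA hA' => ?_⟩
  obtain ⟨E, hE, h3⟩ := h2 A ⟨hA, fun x y hx hy => hA' x hx y hy⟩
  exact ⟨_, hodgeLie_iff.1 hE, h3⟩

/-- the members of the family -/
theorem kinds_of {w : ℕ} (h : IsSimple (coh T X) w) (hp : ∃ ψ, FP.IsPolarisation T X ψ)
    (hL : ∀ (V : 𝒱.Obj) (c : T.W.H V), IsHodge T V 1 c → (algPred T).P V 1 c) :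
    ((w = 1 ∧ IF.IsEllipticCurve T X) ∨ MxC T X w) ∧ ∀ n, AllIn T (algPred T) (pw X n) := by
  rcases h with ⟨rfl, h⟩ | ⟨hw, hm, h⟩
  · exact ⟨Or.inl ⟨rfl, curve_of h⟩, fun n => IG.allIn_of_g2
      (IG.g2_pw (IG.good_kinds hp (Or.inl (curve_of h))) n) (hL _)⟩
  · rcases h with ⟨rfl, h⟩ | h
    · have h1 : MxC T X 1 := mx_of hw hm fun z => Algebra.adjoin_mono (by
        rintro x (hx | hx)
        · exact Or.inr hx
        · exact Or.inl (alg_spH (Submodule.subset_span hx))) (h z)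
      refine ⟨Or.inr h1, fun n => ?_⟩
      have hSi : ∀ x : IF.CV T.W X, x ∈ SC (algPred T) X → x ∈ IF.inv T X := by
        intro x hx
        refine IF.base_le_inv ?_
        have h3 : (algPred T).sp X ≤ spH T X := fun a ha => alg_spH ha
        rw [SC, Submodule.baseChange_eq_span] at hx
        rw [Submodule.baseChange_eq_span]
        refine Submodule.span_mono ?_ hx
        rintro _ ⟨c, hc, rfl⟩
        exact ⟨c, h3 hc, rfl⟩
      refine allIn_pw' (G := (SC (algPred T) X : Set (IF.CV T.W X))) (good_max h1)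
        (gen_C (s := ((algPred T).sp X : Set (T.W.H X))) (fun z => Algebra.adjoin_mono (by
          rintro x (hx | hx)
          · exact Or.inr hx
          · exact Or.inl (Submodule.subset_span hx)) (h z)) fun x hx => tmul_SC hx)
        (fun α hα => hSi α hα) (fun α hα => hα) (fun θ hθ hθ2 => deg2_SC (hL _) hθ hθ2) n
    · have hsum : ∀ x : T.W.H X, ∃ a ∈ spH T X, ∃ v ∈ T.W.gr X w, x = a + v := by
        intro x
        obtain ⟨a, b, ha, hb, hx⟩ := h x
        exact ⟨a, alg_spH ha, b, hb, hx⟩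
      have h1 : MxC T X w := mx_of hw hm fun z => by
        obtain ⟨a, ha, b, hb, rfl⟩ := hsum z
        exact add_mem (Algebra.subset_adjoin (Or.inl ha)) (Algebra.subset_adjoin (Or.inr hb))
      refine ⟨Or.inr h1, fun n => allIn_pw_max h1 hsum ?_ n⟩
      intro j c hc
      obtain ⟨a, ha, b, hb, hab⟩ : ∃ a ∈ (algPred T).sp X, ∃ b ∈ T.W.gr X w, c = a + b := by
        obtain ⟨a, b, ha, hb, hab⟩ := h c
        exact ⟨a, ha, b, hb, hab⟩
      have h4 := ClassPred.sp_proj ha j
      have h5 : H914.proj (T.W.isInternal X) (2 * j) c = c := H914.proj_same _ hc.1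
      nth_rewrite 1 [hab] at h5
      rw [map_add, H914.proj_ne _ hb (by
        rintro rfl
        exact (Nat.not_odd_iff_even.2 (even_two_mul j)) hw), add_zero] at h5
      rwa [h5] at h4

theorem noMor_of {v w : ℕ} (h : NoMorphisms (coh T X) (coh T Y) v w) : NoMor T X Y v w :=
  fun f c hc hf x hx => h f c hc hf x hx

theorem built_of {S : Set 𝒱.Obj} (h : Built T S X) : IF.Built T S X := by
  induction h with
  | of h => exact .of h
  | prod _ _ h1 h2 => exact .prod h1 h2
  | gen _ h2 h1 =>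
    obtain ⟨f, c, h3, h4⟩ := h2
    refine .gen _ _ f c h1 h3 ?_
    rw [eq_top_iff]
    intro y _
    refine Algebra.adjoin_mono ?_ (h4 y)
    rintro _ ⟨a, x, rfl⟩
    exact Set.mem_iUnion.2 ⟨a, x, rfl⟩

theorem power_eq (X : 𝒱.Obj) (n : ℕ) : power X n = pw X n := by
  induction n with
  | zero => rfl
  | succ n ih =>
    change (power X n).prod X = (pw X n).prod X
    rw [ih]

theorem act_eq {A B : 𝒱.Obj} (z : (A.prod B).Cycles) (x : T.W.H A) :
    act T z x = T.W.corr (T.W.cl (A.prod B) z) x := rfl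

theorem fromPowers_built {ι : Type v} {X : ι → 𝒱.Obj} {S : Set ι} (h : FromPowers T X S P) :
    IF.Built T (X '' S) P := by
  induction h with
  | @pow S i n hi =>
    rw [power_eq]
    exact IG.built_pow (.of (Set.mem_image_of_mem X hi)) n
  | @mul S i n P hi _ ih =>
    rw [power_eq]
    exact .prod (IG.built_pow (.of (Set.mem_image_of_mem X hi)) n)
      (ih.mono (Set.image_mono Set.diff_subset))
  | @mot S m P Q _ hs ih =>
    obtain ⟨u, v, h1, h2⟩ := hs
    choose h3 h4 using h1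
    choose j hj using h4
    refine .gen _ _ (fun a => T.W.corr (T.W.cl ((P a).prod Q) (v a)))
      (fun a => (j a : ℤ) - (P a).dim) ih (fun a => isShift_corr (T.cyc _ _ _ (hj a))) ?_
    rw [eq_top_iff]
    intro y _
    rw [← h2 y]
    exact sum_mem fun a _ => Algebra.subset_adjoin (Set.mem_iUnion.2 ⟨a, _, rfl⟩)

theorem corr_mem (S : Sys T.W) {A B : 𝒱.Obj} {c : T.W.H (A.prod B)} (hc : c ∈ S.C (A.prod B))
    {x : T.W.H A} (hx : x ∈ S.C A) : T.W.corr c x ∈ S.C B :=
  S.push _ (S.mul hc (S.map _ hx))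

theorem fromPowers_allIn {ι : Type v} {X : ι → 𝒱.Obj} {S : Set ι}
    (hind : ∀ F : Finset ι, IF.Ind (IF.LT T) X (F : Set ι)) (h : FromPowers T X S P)
    (hg : ∀ i n, AllIn T (algPred T) (pw (X i) n)) : AllIn T (algPred T) P := by
  classical
  induction h with
  | @pow S i n hi =>
    rw [power_eq]
    exact hg i n
  | @mul S i n P hi hP ih =>
    rw [power_eq]
    refine prod_in ?_ (hg i n) ih
    obtain ⟨F, hF, h1⟩ := (fromPowers_built hP).exists_finset
    intro D hD
    obtain ⟨D', hD', h2⟩ := hind (insert i F) i (by simp) D hD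
    refine ⟨D', hD'.1, ?_, ?_⟩
    · have h3 : IG.PP T X {i} (pw (X i) n) := IG.PP.pow i n
      exact h3.agree hD hD'.1 fun j hj => by rw [Set.mem_singleton_iff.1 hj, h2]
    · refine h1.kill hD'.1 ?_
      rintro _ ⟨j, hj, rfl⟩
      refine hD'.2 j ⟨by simp [Finset.mem_coe.1 hj], ?_⟩
      rintro rfl
      exact (hF hj).2 rfl
  | @mot S m P Q _ hs ih =>
    obtain ⟨u, v, h1, h2⟩ := hs
    intro j c hc
    have h3 : c ∈ (algPred T).sp Q := by
      rw [← h2 c]
      refine sum_mem fun a _ => ?_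
      obtain ⟨⟨p, hp⟩, q, hq⟩ := h1 a
      have h4 : T.W.corr (T.W.cl (Q.prod (P a)) (u a)) c ∈ spH T (P a) := by
        refine IF.spH_of (corr_mem (AH.hodgePred (toH T)).sys ?_ ?_)
        · exact IF.of_spH (Submodule.subset_span ⟨p, T.cyc _ _ _ hp⟩)
        · exact IF.of_spH (Submodule.subset_span ⟨j, hc⟩)
      have h5 : T.W.corr (T.W.cl (Q.prod (P a)) (u a)) c ∈ (algPred T).sp (P a) := by
        refine (Submodule.span_le (p := (algPred T).sp (P a))).2 ?_ h4
        rintro x ⟨i, hi⟩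
        exact ClassPred.sp_of (ih a i x hi)
      exact corr_mem (algPred T).sys (ClassPred.sp_of ⟨v a, hq, rfl⟩) h5
    have h4 := ClassPred.sp_proj h3 j
    rwa [H914.proj_same _ hc.1] at h4

theorem hc_iff : HodgeConjecture T X ↔ AllIn T (algPred T) X := Iff.rfl

theorem number_le {n : ℕ} (h : 2 * n ≤ transBetti T X) :
    2 * n + hodgeNumber T X ≤ betti T X := by
  have h0 : betti T X = finrank T.W.K (T.W.H X) := by
    rw [betti, number]
    have : ({c | True} : Set (T.W.H X)) = Set.univ := rfl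
    rw [this, Submodule.span_univ, finrank_top]
  rw [h0]
  have h1 := (Submodule.span T.W.K {c : T.W.H X | ∃ j, IsHodge T X j c}).finrank_quotient_add_finrank
  rw [← h1]
  exact Nat.add_le_add_right h _

theorem kunneth_of (h : Spl T P Y) : HodgeKunneth T P Y := by
  intro j c hc
  refine Submodule.span_mono ?_ (IF.hodge_prod' h hc)
  rintro x ⟨i, j, a, b, ha, hb, rfl⟩
  exact ⟨a, b, ⟨i, ha⟩, ⟨j, hb⟩, rfl⟩

/-- **The theorem.** -/
theorem main (hL : ∀ V, AlgebraicIn T V 1) {ι : Type v} (X : ι → 𝒱.Obj)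
    (hX : ∀ i, Polarised (coh T (X i)))
    (h : NonIsogenous (fun i => coh T (X i)) ∨
      Independent (fun i => coh T (X i)) ∧ ∀ i n, HodgeConjecture T (power (X i) n)) (Z : 𝒱.Obj)
    (hZ : Polarised (coh T Z)) : ∃ S : Set ι, S.Finite ∧
      2 * S.ncard + hodgeNumber T Z ≤ betti T Z ∧ ∀ P Y : 𝒱.Obj, FromPowers T X Sᶜ P →
      Built T (insert Z (X '' S)) Y → IsNonzero (T.W.H P) →
        HodgeKunneth T P Y ∧ HodgeConjecture T P ∧
        (HodgeConjecture T (P.prod Y) ↔ HodgeConjecture T Y) ∧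
        (Y.dim ≤ 3 → HodgeConjecture T (P.prod Y)) := by
  have hX' := fun i => polarised_of (hX i)
  have hk : (∀ F : Finset ι, IF.Ind (IF.LT T) X (F : Set ι)) ∧
      ∀ i n, AllIn T (algPred T) (pw (X i) n) := by
    rcases h with ⟨w, h1, h2⟩ | ⟨h1, h2⟩
    · exact ⟨ind_kinds hX' (fun i => (kinds_of (h1 i) (hX' i) hL).1)
        fun i j hij => noMor_of (h2 i j hij), fun i n => (kinds_of (h1 i) (hX' i) hL).2 n⟩
    · refine ⟨fun F => (IF.indep_of (independent_iff.1 h1)).ind F, fun i n => ?_⟩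
      rw [← power_eq]
      exact h2 i n
  obtain ⟨hind, hg⟩ := hk
  obtain ⟨S, hS1, hS2⟩ := IG.exists_spl X hX' hind (polarised_of hZ)
  refine ⟨S, S.finite_toSet, number_le (by rwa [Set.ncard_coe_finset]),
    fun P Y hP hY hP1 => ?_⟩
  have hs : Spl T P Y := hS2 P Y (Or.inl (fromPowers_built hP)) (built_of hY)
  have hPc := fromPowers_allIn hind hP hg
  exact ⟨kunneth_of hs, hPc, ⟨fun hc => snd_in (Q := algPred T) hP1 hc,
    fun hc => prod_in (Q := algPred T) hs hPc hc⟩, fun hd =>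
    prod_in (Q := algPred T) hs hPc (HD.allIn_three (Q := algPred T) (hL Y) hd)⟩

end

end Pool.Agent.L5helper28.HG
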